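import Pool.Agent.Helper981.Irr

set_option autoImplicit false

open Filter Topology

namespace Pool.Agent.Results.MP_ce3247_an.IrrationalCorner

open Pool.Agent.Helper981

/-- There are a time-periodic Tonelli Lagrangian on a torus `T^n`, an integer `k` and a
`k`-irrational class (for both notions of irrationality) at which the beta function is not
differentiable in `k` directions. -/
theorem result : ∃ (n : ℕ) (L : Phase n → ℝ) (Φ : ℝ → Phase n → Phase n),
    IsTonelli L ∧ IsELFlow L Φ ∧ ∃ (k : ℕ) (h : Fin n → ℝ),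
      IZ h = k ∧ IR h = k ∧ beta L Φ h ≠ ⊤ ∧ beta L Φ h ≠ ⊥ ∧
        ¬ DiffInDirections (beta L Φ) h k := by
  obtain ⟨L, Φ, h, hT, hE, h0, h1, hb, κ, hκ, hl⟩ := main_example
  refine ⟨11, L, Φ, hT, hE, 1, h, IZ_eq h0 h1, IR_eq h0 h1, ?_, ?_, ?_⟩
  · rw [hb]
    exact EReal.zero_ne_top
  · rw [hb]
    exact EReal.zero_ne_bot
  · rintro ⟨W, hW, ℓ, hℓ⟩
    have hne : W ≠ ⊥ := by
      rintro rfl
      simp at hW
    obtain ⟨v, hvW, hv⟩ := Submodule.exists_mem_ne_zero_of_ne_bot hne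
    apply no_line hb hκ hl hv
    have e1 := hℓ ⟨v, hvW⟩
    have e2 := hℓ (-⟨v, hvW⟩)
    rw [map_neg] at e2
    have e3 : (((-⟨v, hvW⟩ : W)) : Fin 11 → ℝ) = -v := rfl
    rw [e3] at e2
    simp only at e1
    rw [e1, e2, ← EReal.coe_add, add_neg_cancel]
    rfl

end Pool.Agent.Results.MP_ce3247_an.IrrationalCorner
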